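import Mathlib
import Pool.Agent.H592LD.HKf

set_option autoImplicit false

/-!
# MP_29211c_nt, Q1

The determinant of `x + (j+k|p) + (j|p) y + (k|p) z + (jk|p) w`, `0 ≤ j, k ≤ (p-3)/2`, for every
prime `p > 3`.
-/

namespace Pool.Agent.Results.MP_29211c_nt.QOne

open Finset Polynomial Matrix Pool.Agent.R945.TP Pool.Agent.Helper184.Chapman Pool.Agent.H592LD
  NumberField Module

/-- the determinant of `[x + (j+k|p) + (j|p) y + (k|p) z + (jk|p) w]`, `0 ≤ j, k ≤ (p-3)/2` -/
noncomputable def D (p : ℕ) [Fact p.Prime] (x y z w : ℂ) : ℂ :=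
  (Matrix.of fun j k : Fin ((p - 1) / 2) =>
    x + ((legendreSym p ((j : ℤ) + (k : ℤ)) : ℤ) : ℂ) + ((legendreSym p (j : ℤ) : ℤ) : ℂ) * y
      + ((legendreSym p (k : ℤ) : ℤ) : ℂ) * z + ((legendreSym p ((j : ℤ) * (k : ℤ)) : ℤ) : ℂ) * w).det

/-- `ε` is the fundamental unit `> 1` of `K`, seen in `ℝ` through `φ` -/
def IsFundamentalUnit (K : Type) [Field K] [NumberField K] (φ : K →+* ℝ) (ε : ℝ) : Prop :=
  1 < ε ∧ ∀ x : ℝ, (∃ v : (𝓞 K)ˣ, φ ((v : 𝓞 K) : K) = x) ↔ ∃ n : ℤ, x = ε ^ n ∨ x = -ε ^ n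

lemma D_eq (p : ℕ) [Fact p.Prime] (k : ℕ) (hm : p = 2 * (k + 1) + 1) (x y z w : ℂ) :
    D p x y z w = ((HX p (k + 1) 1).det - (HX p (k + 1) 0).det) * x -
      (HX p (k + 1) 0).det * (w * x - (y + 1) * (z + 1)) := by
  have hm1 : (p - 1) / 2 = k + 1 := by omega
  rw [← HX_four k x y z w]
  unfold D
  rw [hm1]
  congr 1
  ext i j
  simp only [Matrix.of_apply, chi_apply]
  unfold legendreSym
  push_cast
  rw [map_mul]
  push_cast
  ring

/-- the product over the residues is real -/
lemma prod_real (p : ℕ) [Fact p.Prime] (h1 : p % 4 = 1) (m : ℕ) (hm : p = 2 * m + 1) (c : ℤ) :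
    ∏ r ∈ univ.filter (fun j : ZMod p => quadraticChar (ZMod p) j = c) \ {0}, (1 - sc p r) =
      ((∏ r ∈ univ.filter (fun j : ZMod p => quadraticChar (ZMod p) j = c) \ {0},
        ‖1 - sc p r‖ : ℝ) : ℂ) := by
  have hq : quadraticChar (ZMod p) (-1) = 1 := R945.LD.q_neg_one_of_one h1
  set z : ZMod p → ℂ := fun r => if quadraticChar (ZMod p) r = c then 1 - sc p r else 1 with hz
  have hzc : ∀ k, z (-k) = (starRingEnd ℂ) (z k) := by
    intro k
    simp only [hz]
    rw [← neg_one_mul k, map_mul, hq, one_mul]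
    split_ifs
    · rw [map_sub, map_one, neg_one_mul, sc_conj]
    · simp
  have h := prod_norm m hm z hzc
  have hset : univ.filter (fun j : ZMod p => quadraticChar (ZMod p) j = c) \ {0} =
      (univ.erase (0 : ZMod p)).filter (fun j : ZMod p => quadraticChar (ZMod p) j = c) := by
    ext j
    simp only [Finset.mem_sdiff, Finset.mem_filter, Finset.mem_univ, true_and, Finset.mem_singleton,
      Finset.mem_erase, and_true]
    tauto
  rw [hset, Finset.prod_filter, Finset.prod_filter]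
  rw [h]
  congr 1
  refine Finset.prod_congr rfl fun k _ => ?_
  simp only [hz]
  split_ifs <;> simp

theorem result (p : ℕ) [Fact p.Prime] (hp3 : 3 < p) :
    (p % 4 = 1 → ∀ (K : Type) [Field K] [NumberField K], finrank ℚ K = 2 →
      (∃ β : K, β ^ 2 = (p : K)) → ∀ (φ : K →+* ℝ) (ε : ℝ), IsFundamentalUnit K φ ε →
      ∀ a b : ℚ, ε ^ classNumber K = a + b * Real.sqrt p →
      ∀ x y z w : ℂ, D p x y z w = (legendreSym p 2 : ℤ) * 2 ^ ((p - 3) / 2) *
        ((p * b - 2 * a) * x + (a - 2 * b) * (w * x - (y + 1) * (z + 1)))) ∧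
    (p % 4 = 3 → ∀ x y z w : ℂ, D p x y z w =
      2 ^ ((p - 3) / 2) * ((w * x - (y + 1) * (z + 1)) - 2 * x)) := by
  have hp : p.Prime := Fact.out
  obtain ⟨k, hm⟩ : ∃ k, p = 2 * (k + 1) + 1 := by
    rcases hp.eq_two_or_odd with h | h
    · omega
    · exact ⟨p / 2 - 1, by omega⟩
  have hk : (p - 3) / 2 = k := by omega
  constructor
  · intro h1 K _ _ h2 ⟨β, hβ⟩ φ ε hε a b hab x y z w
    have hε' : R945.RQ.IsFund K φ ε := hε
    obtain ⟨hRn, hNn⟩ := R945.RQ.prod_res h1 K h2 β hβ φ ε hε'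
    have hε1 : 1 < ε := hε.1
    have hε0 : 0 < ε := by linarith
    set H := ε ^ (classNumber K) with hH
    have hH0 : 0 < H := by positivity
    have hp2 : p ≠ 2 := by omega
    have hp0 : (0 : ℝ) < p := by exact_mod_cast hp.pos
    have hsq : Real.sqrt p * Real.sqrt p = p := Real.mul_self_sqrt hp0.le
    have hls : legendreSym p 2 = quadraticChar (ZMod p) 2 := by simp [legendreSym]
    have h2' : quadraticChar (ZMod p) 2 = 1 ∨ quadraticChar (ZMod p) 2 = -1 :=
      quadraticChar_dichotomy (two_ne' hp2)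
    -- the norm of `ε ^ h` is `-1`
    have hnorm : a ^ 2 - p * b ^ 2 = -1 := by
      rcases h2' with h | h
      · obtain ⟨Dt, -, -⟩ := dat_of h1 (k + 1) hm K h2 β hβ φ ε hε' a b (by
          rw [hls, h, show ((2 : ℤ) - 1) * (classNumber K : ℤ) = (classNumber K : ℤ) by ring,
            zpow_natCast]
          exact hab)
        have := Dt.hab
        have h3 : a ^ 2 + 1 = p * b ^ 2 := by exact_mod_cast this
        linarith
      · obtain ⟨Dt, -, -⟩ := dat_of h1 (k + 1) hm K h2 β hβ φ ε hε' (a ^ 3 + 3 * p * a * b ^ 2)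
          (3 * a ^ 2 * b + p * b ^ 3) (by
          rw [hls, h, show ((2 : ℤ) - -1) * (classNumber K : ℤ) = ((classNumber K * 3 : ℕ) : ℤ) by
            push_cast; ring, zpow_natCast, pow_mul, ← hH, hab]
          push_cast
          have hs3 : Real.sqrt p ^ 2 = p := by rw [pow_two]; exact hsq
          linear_combination (3 * (a : ℝ) * b ^ 2 + b ^ 3 * Real.sqrt p) * hs3)
        have := Dt.hab
        have h3 : (a ^ 3 + 3 * p * a * b ^ 2) ^ 2 + 1 = p * (3 * a ^ 2 * b + p * b ^ 3) ^ 2 := by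
          exact_mod_cast this
        set t : ℚ := a ^ 2 - p * b ^ 2 with ht
        have h4 : (t + 1) * (t ^ 2 - t + 1) = 0 := by
          rw [ht]; linear_combination h3
        rcases mul_eq_zero.1 h4 with h5 | h5
        · linarith
        · nlinarith [sq_nonneg (t - 1 / 2)]
    have hHinv : H⁻¹ = b * Real.sqrt p - a := by
      apply inv_eq_of_mul_eq_one_right
      rw [hab]
      have h7 : ((a : ℝ) ^ 2 - p * b ^ 2) = -1 := by exact_mod_cast hnorm
      linear_combination (b : ℝ) ^ 2 * hsq - h7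
    have hg : gg p = ((Real.sqrt p : ℝ) : ℂ) := g_eq h1
    have hset1 : univ.filter (fun j : ZMod p => quadraticChar (ZMod p) j = 1) \ {0} = Rs p := by
      ext j
      simp only [Finset.mem_sdiff, Finset.mem_filter, Finset.mem_univ, true_and,
        Finset.mem_singleton, mem_Rs]
      refine ⟨fun h => h.1, fun h => ⟨h, ?_⟩⟩
      rintro rfl
      rw [MulChar.map_zero] at h; norm_num at h
    have hset2 : univ.filter (fun j : ZMod p => quadraticChar (ZMod p) j = -1) \ {0} = Ns p := by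
      ext j
      simp only [Finset.mem_sdiff, Finset.mem_filter, Finset.mem_univ, true_and,
        Finset.mem_singleton, mem_Ns]
      refine ⟨fun h => h.1, fun h => ⟨h, ?_⟩⟩
      rintro rfl
      rw [MulChar.map_zero] at h; norm_num at h
    have hR : (PR p).eval 1 = p * (b : ℂ) - a * gg p := by
      have h3 := prod_real p h1 (k + 1) hm 1
      rw [hset1] at h3
      have h4 : ∏ r ∈ Rs p, ‖1 - sc p r‖ = Real.sqrt p * H⁻¹ := hRn
      rw [h4, hHinv] at h3
      rw [PR, eval_prod]
      simp only [eval_sub, eval_X, eval_C]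
      rw [h3, hg, show Real.sqrt p * (b * Real.sqrt p - a) = p * b - a * Real.sqrt p by
        linear_combination (b : ℝ) * hsq]
      push_cast
      ring
    have hN : (PN p).eval 1 = p * (b : ℂ) + a * gg p := by
      have h3 := prod_real p h1 (k + 1) hm (-1)
      rw [hset2] at h3
      have h4 : ∏ r ∈ Ns p, ‖1 - sc p r‖ = Real.sqrt p * H := hNn
      rw [h4, hab] at h3
      rw [PN, eval_prod]
      simp only [eval_sub, eval_X, eval_C]
      rw [h3, hg, show Real.sqrt p * (a + b * Real.sqrt p) = p * b + a * Real.sqrt p by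
        linear_combination (b : ℝ) * hsq]
      push_cast
      ring
    rw [D_eq p k hm, HX_one hm h1 a b hR hN, HX_one hm h1 a b hR hN, hk, Nat.add_sub_cancel]
    have hL : (legendreSym p 2 : ℤ) = (-1) ^ ((k + 1) / 2) := by
      rw [legendreSym.at_two hp2, ZMod.χ₈_nat_eq_if_mod_eight, if_neg (by omega)]
      rcases Nat.even_or_odd ((k + 1) / 2) with h | h
      · rw [h.neg_one_pow, if_pos (by obtain ⟨r, hr⟩ := h; omega)]
      · rw [h.neg_one_pow, if_neg (by obtain ⟨r, hr⟩ := h; omega)]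
    rw [hL]
    push_cast
    ring
  · intro h3 x y z w
    rw [D_eq p k hm, HX_three hm h3 (by omega), HX_three hm h3 (by omega), hk, Nat.add_sub_cancel]
    ring

end Pool.Agent.Results.MP_29211c_nt.QOne
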